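import Pool.Agent.H46.Usb.C

set_option autoImplicit false

open Polynomial IntermediateField NumberField OnePoint Pool.Agent.H46.Usb

/-- Some subfield of an algebraic closure of `ℚ` has property (P) but not property (USB). -/
theorem Pool.Agent.Results.MP_8d2e9f_nt.PnotUSB.result (Qb : Type) [Field Qb] [CharZero Qb]
    [IsAlgClosure ℚ Qb] : ∃ F : IntermediateField ℚ Qb, PropP F ∧ ¬USB F := by
  have := IsAlgClosure.isAlgClosed ℚ (K := Qb)
  let T := {K : IntermediateField ℚ Qb // FiniteDimensional ℚ K}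
  choose θ h0 h1 h2 using fun (K : T) N => @step Qb _ _ _ _ K.1 K.2 N
  let K : ℕ → T := Nat.rec ⟨⊥, inferInstance⟩ fun n K => ⟨(K.1⟮θ K n⟯).restrictScalars ℚ, by
    have := K.2
    have := Algebra.IsAlgebraic.tower_top (K := ℚ) K.1 (A := Qb)
    have := adjoin.finiteDimensional (Algebra.IsIntegral.isIntegral (R := K.1) (θ K n))
    exact Module.Finite.trans (R := ℚ) K.1 K.1⟮θ K n⟯⟩
  have mono : Monotone fun n => (K n).1 := monotone_nat_of_le_succ fun n x hx =>
    ((K n).1⟮θ (K n) n⟯).algebraMap_mem ⟨x, hx⟩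
  refine ⟨⨆ n, (K n).1, propP fun C => ?_, fun h => ?_⟩
  · obtain ⟨N, hN⟩ := exists_nat_ge C
    have := (K N).2
    have : NumberField (K N).1 := {}
    refine ((Embeddings.finite_of_norm_le (K N).1 ℂ C).image (↑)).subset fun x ⟨hx, s⟩ => ?_
    rw [coe_iSup_of_directed mono.directed_le, Set.mem_iUnion] at hx
    obtain ⟨n, hn⟩ := hx
    replace hn : x ∈ (K (N + n)).1 := mono (Nat.le_add_left n N) hn
    replace hn : x ∈ (K N).1 := by
      induction n with
      | zero => exact hn
      | succ n ih => exact ih (h2 _ _ x hn ⟨s.1, fun σ => (s.2 σ).trans (hN.trans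
          (Nat.cast_le.mpr (Nat.le_add_right N n)))⟩)
    refine ⟨⟨x, hn⟩, ⟨(isIntegral_algebraMap_iff (algebraMap (K N).1 Qb).injective).mp s.1,
      fun φ => ?_⟩, rfl⟩
    obtain ⟨σ, hσ⟩ := ext_emb _ φ
    exact hσ _ ▸ s.2 σ
  let f := algebraMap Qb[X] (RatFunc Qb) (X ^ 2)
  have fd : deg f = 2 := by simp [f, deg, -map_pow]
  have fa : ∀ a, ht (act f a) = 2 * ht a := fun a => by
    induction a using OnePoint.rec with
    | infty => simp [f, act, ht, -map_pow]
    | coe x => simpa [f, act, ht, -map_pow] using abs_pow x 2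
  obtain ⟨⟨c, c0, hc⟩, -⟩ := h f ht fd.ge ⟨by simpa [fd] using fa, 0, by simp⟩
  obtain ⟨n, hn⟩ := exists_nat_one_div_lt c0
  refine (hc (θ (K n) n) ⟨.inr ⟨_, le_iSup (fun n => (K n).1) (n + 1)
    (mem_adjoin_simple_self (K n).1 _), rfl⟩, Set.infinite_range_of_injective
      (Function.Injective.of_comp (f := ht) (StrictMono.injective (strictMono_nat_of_lt_succ
        fun m => ?_)))⟩).not_gt ((h1 _ _).trans hn)
  have : ∀ m, 0 < ht ((act f)^[m] (θ (K n) n)) := fun m => by
    induction m with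
    | zero => exact h0 _ _
    | succ m ih => rw [Function.iterate_succ_apply', fa]; positivity
  simp only [Function.comp_apply, Function.iterate_succ_apply', fa]
  linarith [this m]
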